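import Mathlib

set_option autoImplicit false

namespace Pool.Agent.Results.MP_afd993_co.NoLinearLowerBound

/-- `S` is a dominating set of `G`: every vertex outside `S` has a neighbour in `S`. -/
def IsDominating {V : Type} (G : SimpleGraph V) (S : Finset V) : Prop :=
  ∀ v, v ∉ S → ∃ u ∈ S, G.Adj v u

/-- The domination number: the smallest size of a dominating set. -/
noncomputable def dominationNumber {V : Type} (G : SimpleGraph V) : ℕ :=
  sInf {n | ∃ S : Finset V, IsDominating G S ∧ S.card = n}

/-- `π` exhibits `G` as a `k`-fold cover of `F`: it is surjective, it restricts to a bijection from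
the neighbourhood of each vertex `w` of `G` onto the neighbourhood of `π w` in `F`, and each of its
fibres has exactly `k` elements. -/
def IsFoldCover {V W : Type} (k : ℕ) (F : SimpleGraph V) (G : SimpleGraph W) (π : W → V) : Prop :=
  Function.Surjective π ∧
    (∀ w : W, Set.BijOn π (G.neighborSet w) (F.neighborSet (π w))) ∧
    ∀ v : V, (π ⁻¹' {v}).ncard = k

theorem dominationNumber_le {V : Type} (G : SimpleGraph V) (S : Finset V)
    (h : IsDominating G S) : dominationNumber G ≤ S.card :=
  Nat.sInf_le ⟨S, h, rfl⟩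

theorem le_dominationNumber {V : Type} [Fintype V] (G : SimpleGraph V) (n : ℕ)
    (h : ∀ S : Finset V, IsDominating G S → n ≤ S.card) : n ≤ dominationNumber G := by
  have hne : {n | ∃ S : Finset V, IsDominating G S ∧ S.card = n}.Nonempty :=
    ⟨_, Finset.univ, fun v hv => absurd (Finset.mem_univ v) hv, rfl⟩
  obtain ⟨S, hS, hc⟩ := Nat.sInf_mem hne
  have := h S hS
  unfold dominationNumber
  omega

/-- The cover defined by a voltage assignment with values in `Γ`. -/
def voltageCover {V Γ : Type} [AddGroup Γ] (F : SimpleGraph V) (c : V → V → Γ)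
    (hc : ∀ u v, F.Adj u v → c v u = - c u v) : SimpleGraph (V × Γ) where
  Adj p q := F.Adj p.1 q.1 ∧ q.2 = p.2 + c p.1 q.1
  symm := ⟨by
    rintro ⟨u, i⟩ ⟨v, j⟩ ⟨h1, h2⟩
    refine ⟨h1.symm, ?_⟩
    simp only at h1 h2 ⊢
    rw [hc u v h1, h2, add_neg_cancel_right]⟩
  loopless := ⟨fun p h => F.loopless.irrefl _ h.1⟩

theorem voltageCover_isFoldCover {V Γ : Type} [AddGroup Γ] (k : ℕ) (hk : Nat.card Γ = k)
    (F : SimpleGraph V) (c : V → V → Γ)
    (hc : ∀ u v, F.Adj u v → c v u = - c u v) :
    IsFoldCover k F (voltageCover F c hc) Prod.fst := by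
  refine ⟨fun v => ⟨(v, 0), rfl⟩, ?_, ?_⟩
  · rintro ⟨u, i⟩
    refine ⟨?_, ?_, ?_⟩
    · rintro ⟨v, j⟩ h
      exact h.1
    · rintro ⟨v, j⟩ h ⟨v', j'⟩ h' hvv
      simp only at hvv
      subst hvv
      have h2 := h.2
      have h2' := h'.2
      simp only at h2 h2'
      rw [h2, h2']
    · intro v hv
      exact ⟨(v, i + c u v), ⟨hv, rfl⟩, rfl⟩
  · intro v
    have : (Prod.fst ⁻¹' {v} : Set (V × Γ)) = (fun i : Γ => (v, i)) '' Set.univ := by
      ext ⟨u, i⟩
      simp only [Set.mem_preimage, Set.mem_singleton_iff, Set.image_univ, Set.mem_range,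
        Prod.mk.injEq]
      constructor
      · rintro rfl
        exact ⟨i, rfl, rfl⟩
      · rintro ⟨_, h, _⟩
        exact h.symm
    rw [this, Set.ncard_image_of_injective _ (fun a b h => (Prod.mk.inj h).2), Set.ncard_univ, hk]

/-- The vertices of the base graph: points, `m`-subsets of the points, and one apex. -/
abbrev BV (m : ℕ) : Type := Fin (2 * m) ⊕ ({x : Finset (Fin (2 * m)) // x.card = m} ⊕ Unit)

/-- Adjacency in the base graph. -/
def bAdj (m : ℕ) : BV m → BV m → Prop
  | Sum.inl a, Sum.inr (Sum.inl x) => a ∈ x.1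
  | Sum.inr (Sum.inl x), Sum.inl a => a ∈ x.1
  | Sum.inl _, Sum.inr (Sum.inr _) => True
  | Sum.inr (Sum.inr _), Sum.inl _ => True
  | Sum.inl _, Sum.inl _ => False
  | Sum.inr _, Sum.inr _ => False

/-- The base graph. -/
def base (m : ℕ) : SimpleGraph (BV m) where
  Adj := bAdj m
  symm := ⟨by
    rintro (a | x | z) (b | y | w) h <;> simp_all [bAdj]⟩
  loopless := ⟨by
    rintro (a | x | z) h <;> simp_all [bAdj]⟩

/-- The position of a point in an `m`-subset. -/
noncomputable def rk (m : ℕ) [NeZero m] (x : {x : Finset (Fin (2 * m)) // x.card = m})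
    (a : Fin (2 * m)) : Fin m :=
  if h : a ∈ x.1 then x.1.equivFinOfCardEq x.2 ⟨a, h⟩ else 0

theorem exists_rk (m : ℕ) [NeZero m] (x : {x : Finset (Fin (2 * m)) // x.card = m})
    (j : Fin m) : ∃ a ∈ x.1, rk m x a = j := by
  refine ⟨((x.1.equivFinOfCardEq x.2).symm j).1, ((x.1.equivFinOfCardEq x.2).symm j).2, ?_⟩
  unfold rk
  rw [dif_pos ((x.1.equivFinOfCardEq x.2).symm j).2]
  simp

/-- The voltages. -/
noncomputable def volt (m : ℕ) [NeZero m] : BV m → BV m → Fin m
  | Sum.inl a, Sum.inr (Sum.inl x) => rk m x a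
  | Sum.inr (Sum.inl x), Sum.inl a => - rk m x a
  | _, _ => 0

theorem volt_anti (m : ℕ) [NeZero m] : ∀ u v, (base m).Adj u v → volt m v u = - volt m u v := by
  rintro (a | x | z) (b | y | w) h <;> simp_all [base, bAdj, volt]

theorem domination_cover (m : ℕ) [NeZero m] :
    dominationNumber (voltageCover (base m) (volt m) (volt_anti m)) ≤ 3 * m := by
  classical
  let S : Finset (BV m × Fin m) :=
    (Finset.univ.image (fun a : Fin (2 * m) => ((Sum.inl a : BV m), (0 : Fin m)))) ∪
      (Finset.univ.image (fun i : Fin m => ((Sum.inr (Sum.inr ()) : BV m), i)))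
  have hS : IsDominating (voltageCover (base m) (volt m) (volt_anti m)) S := by
    rintro ⟨a | x | z, i⟩ h
    · refine ⟨(Sum.inr (Sum.inr ()), i), ?_, ?_⟩
      · simp [S]
      · refine ⟨?_, ?_⟩
        · simp [base, bAdj]
        · simp [volt]
    · obtain ⟨a, ha, hr⟩ := exists_rk m x i
      refine ⟨(Sum.inl a, 0), ?_, ?_⟩
      · simp [S]
      · refine ⟨?_, ?_⟩
        · simpa [base, bAdj] using ha
        · simp [volt, hr]
    · exfalso
      apply h
      cases z
      simp [S]
  refine (dominationNumber_le _ S hS).trans ?_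
  refine (Finset.card_union_le _ _).trans ?_
  have h1 : (Finset.univ.image (fun a : Fin (2 * m) => ((Sum.inl a : BV m), (0 : Fin m)))).card
      ≤ 2 * m := Finset.card_image_le.trans (by simp)
  have h2 : (Finset.univ.image (fun i : Fin m => ((Sum.inr (Sum.inr ()) : BV m), i))).card
      ≤ m := Finset.card_image_le.trans (by simp)
  omega

theorem domination_base (m : ℕ) [NeZero m] : m + 1 ≤ dominationNumber (base m) := by
  classical
  refine le_dominationNumber _ _ ?_
  intro D hD
  by_contra hlt
  have hlt : D.card ≤ m := by omega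
  have hne : ∀ x : {x : Finset (Fin (2 * m)) // x.card = m}, x.1.Nonempty := by
    intro x
    rw [← Finset.card_pos, x.2]
    exact Nat.pos_of_ne_zero (NeZero.ne m)
  let g : BV m → Finset (Fin (2 * m)) := fun v =>
    match v with
    | Sum.inl a => {a}
    | Sum.inr (Sum.inl x) => {(hne x).choose}
    | Sum.inr (Sum.inr _) => ∅
  have hg : ∀ v, (g v).card ≤ 1 := by
    rintro (a | x | z) <;> simp [g]
  let D' := D.biUnion g
  have hD' : D'.card ≤ m := by
    refine (Finset.card_biUnion_le_card_mul D g 1 (fun v _ => hg v)).trans ?_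
    omega
  have hcompl : m ≤ (D'ᶜ).card := by
    rw [Finset.card_compl, Fintype.card_fin]
    omega
  obtain ⟨x, hx, hxc⟩ := Finset.exists_subset_card_eq hcompl
  have hxD : (Sum.inr (Sum.inl ⟨x, hxc⟩) : BV m) ∉ D := by
    intro hmem
    have h1 : (hne ⟨x, hxc⟩).choose ∈ D' := by
      refine Finset.mem_biUnion.mpr ⟨_, hmem, ?_⟩
      simp [g]
    have h2 : (hne ⟨x, hxc⟩).choose ∈ D'ᶜ := hx (hne ⟨x, hxc⟩).choose_spec
    exact Finset.mem_compl.mp h2 h1
  obtain ⟨u, hu, hadj⟩ := hD _ hxD
  rcases u with a | y | z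
  · have h1 : a ∈ D' := Finset.mem_biUnion.mpr ⟨_, hu, by simp [g]⟩
    have h2 : a ∈ x := by simpa [base, bAdj] using hadj
    exact Finset.mem_compl.mp (hx h2) h1
  · simp [base, bAdj] at hadj
  · simp [base, bAdj] at hadj

/-- For every `c > 0` there are `k ≥ 1`, a finite graph `F` and a `k`-fold cover `G` of `F` with
`γ(G) < c k γ(F)`. -/
theorem result : ∀ c : ℝ, 0 < c →
    ∃ (k : ℕ) (V W : Type) (_ : Finite V) (_ : Finite W) (F : SimpleGraph V) (G : SimpleGraph W)
      (π : W → V), 1 ≤ k ∧ IsFoldCover k F G π ∧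
        (dominationNumber G : ℝ) < c * k * dominationNumber F := by
  intro c hc
  obtain ⟨m, hm⟩ := exists_nat_gt (3 / c)
  have hm0 : 0 < m := by
    rcases Nat.eq_zero_or_pos m with h | h
    · subst h
      have : 0 < 3 / c := by positivity
      simp at hm
      linarith
    · exact h
  have : NeZero m := ⟨hm0.ne'⟩
  refine ⟨m, BV m, BV m × Fin m, inferInstance, inferInstance, base m,
    voltageCover (base m) (volt m) (volt_anti m), Prod.fst, hm0, ?_, ?_⟩
  · exact voltageCover_isFoldCover m (by simp) _ _ _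
  · have h1 : (dominationNumber (voltageCover (base m) (volt m) (volt_anti m)) : ℝ) ≤ 3 * m := by
      exact_mod_cast domination_cover m
    have h2 : ((m : ℝ) + 1) ≤ dominationNumber (base m) := by
      exact_mod_cast domination_base m
    have hmR : (0 : ℝ) < m := by exact_mod_cast hm0
    rw [div_lt_iff₀ hc] at hm
    calc (dominationNumber (voltageCover (base m) (volt m) (volt_anti m)) : ℝ) ≤ 3 * m := h1
      _ < (m * c) * m := by nlinarith
      _ = c * m * m := by ring
      _ ≤ c * m * dominationNumber (base m) := by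
        apply mul_le_mul_of_nonneg_left _ (by positivity)
        linarith

end Pool.Agent.Results.MP_afd993_co.NoLinearLowerBound
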